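import Pool.Agent.Lib.MP_688fd0_co.ASY.TB.Iface
import Pool.Agent.Lib.MP_688fd0_co.LP.ConnBasic

/-!
TB-CROSS: a walk inside a slab from height `<= a` to height `>= b` contains a walk inside `[a, b]`.
-/

set_option autoImplicit false

namespace Pool.Agent.Lib.MP_688fd0_co.ASY.H91

open Classical
open Pool.Agent.Lib.MP_688fd0_co.LP (IsP Conn Cyc Symm cay)
open Pool.Agent.Lib.MP_688fd0_co.LIN

universe u

/-- neighbours have almost the same distance from a given vertex -/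
theorem dist_adj {V : Type*} {G : SimpleGraph V} (hc : G.Connected) (o : V) {u v : V} (h : G.Adj u v) :
    G.dist o u ≤ G.dist o v + 1 ∧ G.dist o v ≤ G.dist o u + 1 := by
  have h1 : G.dist u v = 1 := SimpleGraph.dist_eq_one_iff_adj.2 h
  have h2 : G.dist v u = 1 := SimpleGraph.dist_eq_one_iff_adj.2 h.symm
  have h3 := hc.dist_triangle (u := o) (v := u) (w := v)
  have h4 := hc.dist_triangle (u := o) (v := v) (w := u)
  omega

/-- general form: `f` changes by at most one along edges -/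
theorem cross_gen {V : Type*} {G : SimpleGraph V} (f : V → ℕ) (hf : ∀ u v, G.Adj u v → f v ≤ f u + 1)
    {F : Set V} {x y : V} {a b : ℕ} (hab : a ≤ b) (h : Conn G F x y) (hx : f x ≤ a) (hy : b ≤ f y) :
    ∃ x' y', f x' = a ∧ f y' = b ∧ Conn G (F ∩ {v | a ≤ f v ∧ f v ≤ b}) x' y' ∧ Conn G F x x' ∧ Conn G F y' y := by
  have key : ∀ v, Conn G F x v →
      (∃ x' y', f x' = a ∧ f y' = b ∧ Conn G (F ∩ {v | a ≤ f v ∧ f v ≤ b}) x' y' ∧ Conn G F x x' ∧ Conn G F y' v) ∨
      f v ≤ a ∨ (∃ x', f x' = a ∧ Conn G (F ∩ {v | a ≤ f v ∧ f v ≤ b}) x' v ∧ Conn G F x x') := by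
    rintro v ⟨hxF, hv⟩
    induction hv with
    | refl => exact Or.inr (Or.inl hx)
    | @tail v v' hvv hadj ih =>
      obtain ⟨hadj, hv'F⟩ := hadj
      have hcv : Conn G F x v := ⟨hxF, hvv⟩
      have hf1 := hf v v' hadj
      rcases ih with ⟨x', y', h1, h2, h3, h4, h5⟩ | h1 | ⟨x', h1, h2, h3⟩
      · exact Or.inl ⟨x', y', h1, h2, h3, h4, h5.tail hadj hv'F⟩
      · by_cases h2 : f v' ≤ a
        · exact Or.inr (Or.inl h2)
        · have h3 : f v = a := by omega
          by_cases h4 : a + 1 ≤ b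
          · refine Or.inr (Or.inr ⟨v, h3, ?_, hcv⟩)
            exact Conn.adj ⟨hcv.right_mem, by simp only [Set.mem_ofPred_eq]; omega⟩
              ⟨hv'F, by simp only [Set.mem_ofPred_eq]; omega⟩ hadj
          · refine Or.inl ⟨v, v, h3, by omega, ?_, hcv, ?_⟩
            · exact Conn.refl ⟨hcv.right_mem, by simp only [Set.mem_ofPred_eq]; omega⟩
            · exact Conn.adj hcv.right_mem hv'F hadj
      · have hvm : a ≤ f v ∧ f v ≤ b := h2.right_mem.2
        by_cases h4 : f v' < a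
        · exact Or.inr (Or.inl h4.le)
        · by_cases h5 : f v' ≤ b
          · exact Or.inr (Or.inr ⟨x', h1, h2.tail hadj ⟨hv'F, by simp only [Set.mem_ofPred_eq]; omega⟩, h3⟩)
          · exact Or.inl ⟨x', v, h1, by omega, h2, h3, Conn.adj hcv.right_mem hv'F hadj⟩
  rcases key y h with h1 | h1 | ⟨x', h1, h2, h3⟩
  · exact h1
  · have h2 : f y = a := by omega
    refine ⟨y, y, h2, by omega, ?_, h, Conn.refl h.right_mem⟩
    exact Conn.refl ⟨h.right_mem, by simp only [Set.mem_ofPred_eq]; omega⟩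
  · have hym : a ≤ f y ∧ f y ≤ b := h2.right_mem.2
    exact ⟨x', y, h1, by omega, h2, h3, Conn.refl h.right_mem⟩

/-- the same for descending walks -/
theorem mem_sl {V : Type u} [Fintype V] {G : SimpleGraph V} {γ : ℕ → V} {w D a b : ℕ} {x : V} :
    x ∈ sl G γ w D a b ↔ x ∈ om G γ w D ∧ a ≤ G.dist (γ 0) x ∧ G.dist (γ 0) x ≤ b := by
  simp [sl]

/-- TB-CROSS -/
theorem cross : CrossStatement.{u} := by
  intro V _ G r w D γ hO a₀ b₀ a b X x y ha hab hb h hx hy
  have hc : G.Connected := hO.vt.conn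
  obtain ⟨x', y', h1, h2, h3, h4, h5⟩ := cross_gen (fun v => G.dist (γ 0) v)
    (fun u v huv => (dist_adj hc (γ 0) huv).2) hab h hx hy
  refine ⟨x', y', h1, h2, h3.mono ?_, h4, h5⟩
  rintro v ⟨⟨hv1, hv2⟩, hv3⟩
  refine ⟨?_, hv2⟩
  rw [Finset.mem_coe, mem_sl] at hv1 ⊢
  exact ⟨hv1.1, hv3.1, hv3.2⟩

end Pool.Agent.Lib.MP_688fd0_co.ASY.H91
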