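import Pool.Agent.Lib.MP_688fd0_co.ASY.H91.Cross

/-!
TB-LOC: a cut of a slab gives a separation of two balls at distance at most `30 w (|X| + 1)`.
-/

set_option autoImplicit false

namespace Pool.Agent.Lib.MP_688fd0_co.ASY.H91

open Classical
open Pool.Agent.Lib.MP_688fd0_co.LP (IsP Conn Cyc Symm cay)
open Pool.Agent.Lib.MP_688fd0_co.LIN

universe u

/-- TB-LOC -/
theorem loc (hN : NearStatement.{u}) : LocStatement.{u} := by
  intro V _ G r w D γ hO a b X ha hab hb hcut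
  obtain ⟨-, n2, n3, n4, n5, n6, -⟩ := hN V G r w D γ hO
  have hc : G.Connected := hO.vt.conn
  have hw : 1 ≤ w := by rw [hO.w_eq]; omega
  obtain ⟨a₀, rfl⟩ : ∃ a₀, a = a₀ + 30 * w := ⟨a - 30 * w, by omega⟩
  have ha0 : 70 * w ≤ a₀ := by omega
  -- the number of windows
  obtain ⟨J, hJ1, hJ2⟩ : ∃ J, b < a₀ + 30 * w * J ∧ a₀ + 30 * w * J ≤ b + 30 * w := by
    refine ⟨(b - a₀) / (30 * w) + 1, ?_, ?_⟩
    · have h1 := Nat.div_add_mod (b - a₀) (30 * w)
      have h2 := Nat.mod_lt (b - a₀) (show 0 < 30 * w by omega)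
      rw [Nat.mul_add, mul_one]
      omega
    · have h1 := Nat.div_mul_le_self (b - a₀) (30 * w)
      rw [Nat.mul_add, mul_one, Nat.mul_comm (30 * w)]
      omega
  set F : Set V := (↑(sl G γ w D a₀ (a₀ + 30 * w * J + 30 * w)) : Set V) \ ↑X with hF
  have memF : ∀ v, v ∈ F ↔ (v ∈ om G γ w D ∧ a₀ ≤ G.dist (γ 0) v ∧
      G.dist (γ 0) v ≤ a₀ + 30 * w * J + 30 * w) ∧ v ∉ X := by
    intro v
    rw [hF, Set.mem_sdiff, Finset.mem_coe, mem_sl, Finset.mem_coe]
  have hXh : ∀ x ∈ X, a₀ + 30 * w ≤ G.dist (γ 0) x ∧ G.dist (γ 0) x ≤ b := by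
    intro x hx
    exact (mem_sl.1 (hcut.1 hx)).2
  let Xf : ℕ → Prop := fun j => ∀ x ∈ X, ¬ (a₀ + 30 * w * j ≤ G.dist (γ 0) x ∧
    G.dist (γ 0) x < a₀ + 30 * w * j + 30 * w)
  let Low : ℕ → Prop := fun j => Xf j ∧ Conn G F (γ (a₀ + 15 * w)) (γ (a₀ + 30 * w * j + 15 * w))
  have hmulJ : ∀ j, j ≤ J → 30 * w * j ≤ 30 * w * J := fun j hj => Nat.mul_le_mul_left _ hj
  -- core vertices of an `X`-free window are joined
  have core : ∀ j ≤ J, Xf j → ∀ x y, x ∈ om G γ w D → y ∈ om G γ w D →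
      a₀ + 30 * w * j + 5 * w ≤ G.dist (γ 0) x → G.dist (γ 0) x ≤ a₀ + 30 * w * j + 25 * w →
      a₀ + 30 * w * j + 5 * w ≤ G.dist (γ 0) y → G.dist (γ 0) y ≤ a₀ + 30 * w * j + 25 * w → Conn G F x y := by
    intro j hj hXf x y hx hy hx1 hx2 hy1 hy2
    have h1 := n6 (a₀ + 30 * w * j + 5 * w) (a₀ + 30 * w * j + 25 * w) x (mem_sl.2 ⟨hx, hx1, hx2⟩) y
      (mem_sl.2 ⟨hy, hy1, hy2⟩)
    refine h1.mono ?_
    intro v hv
    rw [Finset.mem_coe, mem_sl] at hv
    have h2 := hmulJ j hj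
    rw [memF]
    refine ⟨⟨hv.1, by omega, by omega⟩, fun hvX => ?_⟩
    exact hXf v hvX ⟨by omega, by omega⟩
  have hγ : ∀ t, a₀ ≤ t → t ≤ a₀ + 30 * w * J + 30 * w → γ t ∈ om G γ w D ∧ G.dist (γ 0) (γ t) = t := by
    intro t h1 h2
    exact ⟨n3 t (by omega) (by omega), n2 t (by omega)⟩
  -- window 0 is low
  have hXf0 : Xf 0 := by
    intro x hx h
    have := hXh x hx
    rw [Nat.mul_zero] at h
    omega
  have hLow0 : Low 0 := by
    refine ⟨hXf0, ?_⟩
    obtain ⟨h1, h2⟩ := hγ (a₀ + 15 * w) (by omega) (by omega)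
    rw [Nat.mul_zero, Nat.add_zero]
    exact core 0 (Nat.zero_le _) hXf0 _ _ h1 h1 (by rw [Nat.mul_zero]; omega) (by rw [Nat.mul_zero]; omega)
      (by rw [Nat.mul_zero]; omega) (by rw [Nat.mul_zero]; omega)
  have hXfJ : Xf J := by
    intro x hx h
    have := hXh x hx
    omega
  -- window J is not low
  have hLowJ : ¬ Low J := by
    rintro ⟨-, h⟩
    obtain ⟨-, h2⟩ := hγ (a₀ + 15 * w) (by omega) (by omega)
    obtain ⟨-, h4⟩ := hγ (a₀ + 30 * w * J + 15 * w) (by omega) (by omega)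
    obtain ⟨x', y', h5, h6, h7, -, -⟩ := cross V G r w D γ hO a₀ (a₀ + 30 * w * J + 30 * w) (a₀ + 30 * w) b
      (↑X : Set V) _ _ (by omega) hab (by omega) h (by rw [h2]; omega) (by rw [h4]; omega)
    exact hcut.2 x' y' h5 h6 h7
  -- the last low window and the next free one
  obtain ⟨j, hjJ, hjLow, hjmax⟩ : ∃ j, j ≤ J ∧ Low j ∧ ∀ i, j < i → i ≤ J → ¬ Low i := by
    refine ⟨Nat.findGreatest Low J, Nat.findGreatest_le J, Nat.findGreatest_spec (Nat.zero_le J) hLow0, ?_⟩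
    intro i hi hiJ
    exact Nat.findGreatest_is_greatest hi hiJ
  have hjlt : j < J := by
    rcases Nat.lt_or_ge j J with h | h
    · exact h
    · have : j = J := by omega
      rw [this] at hjLow
      exact absurd hjLow hLowJ
  have hex : ∃ i, j < i ∧ Xf i := ⟨J, hjlt, hXfJ⟩
  obtain ⟨j', ⟨hj'1, hj'2⟩, hj'min⟩ : ∃ j', (j < j' ∧ Xf j') ∧ ∀ i, i < j' → ¬ (j < i ∧ Xf i) :=
    ⟨Nat.find hex, Nat.find_spec hex, fun i hi => Nat.find_min hex hi⟩
  have hj'J : j' ≤ J := by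
    by_contra hlt
    exact hj'min J (by omega) ⟨hjlt, hXfJ⟩
  have hcount : j' - j - 1 ≤ X.card := by
    have h1 : Finset.Ioo j j' ⊆ X.image (fun x => (G.dist (γ 0) x - a₀) / (30 * w)) := by
      intro i hi
      rw [Finset.mem_Ioo] at hi
      have h2 : ¬ Xf i := fun h => hj'min i hi.2 ⟨hi.1, h⟩
      simp only [Xf] at h2
      push Not at h2
      obtain ⟨x, hx, h3, h4⟩ := h2
      rw [Finset.mem_image]
      refine ⟨x, hx, ?_⟩
      rw [Nat.div_eq_iff (show 0 < 30 * w by omega)]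
      rw [Nat.mul_comm i]
      omega
    have h2 := (Finset.card_le_card h1).trans Finset.card_image_le
    rwa [Nat.card_Ioo] at h2
  have hstep : 30 * w * j + 30 * w * (j' - j) = 30 * w * j' := by
    rw [← Nat.mul_add]; congr 1; omega
  have hmulj' := hmulJ j' hj'J
  have hd : G.dist (γ (a₀ + 30 * w * j + 15 * w)) (γ (a₀ + 30 * w * j' + 15 * w)) = 30 * w * (j' - j) := by
    rw [hO.geo _ _ (by omega) (by omega)]
    omega
  refine ⟨γ (a₀ + 30 * w * j + 15 * w), γ (a₀ + 30 * w * j' + 15 * w), ?_, ?_, ?_⟩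
  · rw [hd]
    calc 30 * w = 30 * w * 1 := by ring
      _ ≤ 30 * w * (j' - j) := Nat.mul_le_mul_left _ (by omega)
  · rw [hd]
    exact Nat.mul_le_mul_left _ (by omega)
  · intro x y hx hy hconn
    have hL1 : G.dist (γ 0) (γ (a₀ + 30 * w * j + 15 * w)) = a₀ + 30 * w * j + 15 * w := (hγ _ (by omega) (by omega)).2
    have hL2 : G.dist (γ 0) (γ (a₀ + 30 * w * j' + 15 * w)) = a₀ + 30 * w * j' + 15 * w := (hγ _ (by omega) (by omega)).2
    -- heights in the lens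
    have hlens : ∀ v, G.dist (γ (a₀ + 30 * w * j + 15 * w)) v + G.dist (γ (a₀ + 30 * w * j' + 15 * w)) v ≤
        G.dist (γ (a₀ + 30 * w * j + 15 * w)) (γ (a₀ + 30 * w * j' + 15 * w)) + 6 * w →
        a₀ + 30 * w * j + 9 * w ≤ G.dist (γ 0) v ∧ G.dist (γ 0) v ≤ a₀ + 30 * w * j' + 21 * w := by
      intro v hv
      rw [hd] at hv
      have h1 := hc.dist_triangle (u := γ 0) (v := γ (a₀ + 30 * w * j + 15 * w)) (w := v)
      have h2 := hc.dist_triangle (u := γ 0) (v := v) (w := γ (a₀ + 30 * w * j' + 15 * w))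
      have h3 : G.dist v (γ (a₀ + 30 * w * j' + 15 * w)) = G.dist (γ (a₀ + 30 * w * j' + 15 * w)) v :=
        SimpleGraph.dist_comm
      omega
    have hx4 := n4 (a₀ + 30 * w * j + 15 * w) (4 * w) x (by omega) (by omega) hx
    have hy4 := n4 (a₀ + 30 * w * j' + 15 * w) (4 * w) y (by omega) (by omega) hy
    -- the walk stays in om
    have hF' : Conn G F x y := by
      obtain ⟨hxF, hxy⟩ := hconn
      have hx0 : x ∈ F := by
        have h1 := hlens x hxF.1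
        rw [memF]
        exact ⟨⟨hx4.1, by omega, by omega⟩, hxF.2⟩
      clear hy hy4
      induction hxy with
      | refl => exact Conn.refl hx0
      | @tail v v' hv hvv' ih =>
        obtain ⟨hadj, hv'⟩ := hvv'
        refine ih.tail hadj ?_
        have h1 := (memF v).1 ih.right_mem
        have h2 := hlens v' hv'.1
        have h3 := n5 a₀ (a₀ + 30 * w * J + 30 * w) (by omega) (by omega) v (mem_sl.2 h1.1) v' hadj
        rw [memF]
        exact ⟨⟨h3.1, by omega, by omega⟩, hv'.2⟩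
    have hcx : Conn G F (γ (a₀ + 30 * w * j + 15 * w)) x := by
      refine core j hjJ hjLow.1 _ _ (hγ _ (by omega) (by omega)).1 hx4.1 ?_ ?_ ?_ ?_ <;> omega
    have hyc : Conn G F y (γ (a₀ + 30 * w * j' + 15 * w)) := by
      refine core j' hj'J hj'2 _ _ hy4.1 (hγ _ (by omega) (by omega)).1 ?_ ?_ ?_ ?_ <;> omega
    exact hjmax j' hj'1 hj'J ⟨hj'2, hjLow.2.trans (hcx.trans (hF'.trans hyc))⟩

end Pool.Agent.Lib.MP_688fd0_co.ASY.H91
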