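import Pool.Agent.Lib.MP_688fd0_co.LIN.Defs

/-!
The cycles of a permutation as a family of disjoint cycles of a graph.
-/

set_option autoImplicit false

namespace Pool.Agent.Lib.MP_688fd0_co.ASY.H91

open Classical
open Pool.Agent.Lib.MP_688fd0_co.LP (IsP Conn Cyc Symm cay)
open Pool.Agent.Lib.MP_688fd0_co.LIN

universe u

section
variable {V : Type u} [Fintype V]

theorem toList_cyc {G : SimpleGraph V} (σ : Equiv.Perm V) (hσ : ∀ v, σ v ≠ v → G.Adj v (σ v)) (C : ℕ) (hC : 3 ≤ C)
    (hper : ∀ v, σ v ≠ v → ∀ i, 0 < i → i < C → (σ ^ i) v ≠ v) (v : V) (hv : σ v ≠ v) :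
    Cyc G (σ.toList v) ∧ C ≤ (σ.toList v).length := by
  have hvs : v ∈ σ.support := Equiv.Perm.mem_support.2 hv
  have hpos : 0 < (σ.toList v).length := Equiv.Perm.length_toList_pos_of_mem_support _ _ hvs
  have hret : (σ ^ (σ.toList v).length) v = v := by
    rw [Equiv.Perm.length_toList]
    have h1 := Equiv.Perm.pow_mod_card_support_cycleOf_self_apply σ (σ.cycleOf v).support.card v
    rw [Nat.mod_self, pow_zero, Equiv.Perm.one_apply] at h1
    exact h1.symm
  have hlen : C ≤ (σ.toList v).length := by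
    by_contra hlt
    exact hper v hv _ hpos (by omega) hret
  have hstep : ∀ i : ℕ, G.Adj ((σ ^ i) v) ((σ ^ (i + 1)) v) := by
    intro i
    rw [pow_succ', Equiv.Perm.mul_apply]
    refine hσ _ ?_
    intro h
    apply hv
    rw [← Equiv.Perm.mul_apply, ← pow_succ', pow_succ, Equiv.Perm.mul_apply] at h
    exact (σ ^ i).injective h
  refine ⟨⟨⟨List.ne_nil_of_length_pos hpos, ?_, Equiv.Perm.nodup_toList σ v⟩, by omega, ?_⟩, hlen⟩
  · rw [List.isChain_iff_getElem]
    intro i hi
    rw [Equiv.Perm.getElem_toList, Equiv.Perm.getElem_toList]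
    exact hstep i
  · refine ⟨v, (σ ^ ((σ.toList v).length - 1)) v, ?_, ?_, ?_⟩
    · rw [List.head?_eq_getElem?, List.getElem?_eq_getElem hpos, Equiv.Perm.getElem_toList, pow_zero,
        Equiv.Perm.one_apply]
    · rw [List.getLast?_eq_getElem?, List.getElem?_eq_getElem (by omega), Equiv.Perm.getElem_toList]
    · have h1 := hstep ((σ.toList v).length - 1)
      rw [Nat.sub_add_cancel hpos, hret] at h1
      exact h1

/-- the cycles of a permutation -/
theorem perm_family {G : SimpleGraph V} (σ : Equiv.Perm V) (hσ : ∀ v, σ v ≠ v → G.Adj v (σ v)) (C : ℕ) (hC : 3 ≤ C)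
    (hper : ∀ v, σ v ≠ v → ∀ i, 0 < i → i < C → (σ ^ i) v ≠ v) :
    ∃ F : Finset (List V), (∀ c ∈ F, Cyc G c ∧ C ≤ c.length) ∧ PD F ∧
      (Finset.univ.filter (fun v => σ v ≠ v)).card ≤ ∑ c ∈ F, c.length := by
  let s : Setoid V := ⟨σ.SameCycle, ⟨fun x => Equiv.Perm.SameCycle.refl σ x, fun h => h.symm, fun h h' => h.trans h'⟩⟩
  let rep : V → V := fun v => (Quotient.mk s v).out
  have hrep : ∀ v, σ.SameCycle (rep v) v := fun v => Quotient.exact (Quotient.out_eq (Quotient.mk s v))
  have hrep2 : ∀ v w, σ.SameCycle v w → rep v = rep w := by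
    intro v w hvw
    have : Quotient.mk s v = Quotient.mk s w := Quotient.sound hvw
    simp only [rep, this]
  have hmov : ∀ v, σ v ≠ v → σ (rep v) ≠ rep v := by
    intro v hv
    have h1 := (hrep v).symm.apply_eq_self_iff
    intro h2
    exact hv (h1.2 h2)
  refine ⟨(Finset.univ.filter (fun v => σ v ≠ v)).image (fun v => σ.toList (rep v)), ?_, ?_, ?_⟩
  · intro c hc
    obtain ⟨v, hv, rfl⟩ := Finset.mem_image.1 hc
    exact toList_cyc σ hσ C hC hper (rep v) (hmov v (Finset.mem_filter.1 hv).2)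
  · intro c hc c' hc' hne x hx hx'
    obtain ⟨v, hv, rfl⟩ := Finset.mem_image.1 hc
    obtain ⟨w, hw, rfl⟩ := Finset.mem_image.1 hc'
    rw [Equiv.Perm.mem_toList_iff] at hx hx'
    apply hne
    have h1 : σ.SameCycle v w := (hrep v).symm.trans (hx.1.trans (hx'.1.symm.trans (hrep w)))
    simp only [hrep2 v w h1]
  · refine le_trans (Finset.card_le_card (t := ((Finset.univ.filter (fun v => σ v ≠ v)).image
      (fun v => σ.toList (rep v))).biUnion List.toFinset) ?_) ?_
    · intro v hv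
      rw [Finset.mem_biUnion]
      refine ⟨σ.toList (rep v), Finset.mem_image_of_mem _ hv, ?_⟩
      rw [List.mem_toFinset, Equiv.Perm.mem_toList_iff]
      exact ⟨hrep v, Equiv.Perm.mem_support.2 (hmov v (Finset.mem_filter.1 hv).2)⟩
    · exact Finset.card_biUnion_le.trans (Finset.sum_le_sum (fun c _ => List.toFinset_card_le c))

end

end Pool.Agent.Lib.MP_688fd0_co.ASY.H91
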