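import Pool.Agent.Lib.MP_688fd0_co.ASY.H91.Section
import Mathlib.GroupTheory.GroupAction.Defs

/-!
Lifting the cycles of a permutation of a set on which a subgroup acts transitively.
-/

set_option autoImplicit false

namespace Pool.Agent.Lib.MP_688fd0_co.ASY.H91

open Classical
open Pool.Agent.Lib.MP_688fd0_co.LPV
open Pool.Agent.Lib.MP_688fd0_co.LP (IsP Conn Cyc Symm cay)
open Pool.Agent.Lib.MP_688fd0_co.LIN

universe u v

section
variable {Γ : Type u} [Group Γ] {X : Type v}

/-- the position in `X` -/
noncomputable def px (K : Subgroup Γ) [MulAction K X] (x0 : X) (g : Γ) : X :=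
  (⟨(rp K g)⁻¹ * g, rp_mem K g⟩ : K)⁻¹ • x0

theorem px_mul (K : Subgroup Γ) [MulAction K X] (x0 : X) (g : Γ) (k : K) :
    px K x0 (g * k) = k⁻¹ • px K x0 g := by
  unfold px
  rw [smul_smul, ← mul_inv_rev]
  congr 2
  ext
  simp only [rp_mul, Subgroup.coe_mul]
  rw [mul_assoc]

variable [Fintype Γ] [Fintype X]

theorem fibx_card (K : Subgroup Γ) [MulAction K X] [MulAction.IsPretransitive K X] (x0 : X) (x : X) :
    (Finset.univ.filter (fun g : Γ => px K x0 g = x)).card * Fintype.card X = Fintype.card Γ := by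
  have h1 : ∀ y : X, (Finset.univ.filter (fun g : Γ => px K x0 g = y)).card =
      (Finset.univ.filter (fun g : Γ => px K x0 g = x)).card := by
    intro y
    obtain ⟨k, hk⟩ := MulAction.exists_smul_eq K y x
    refine Finset.card_bij (fun g _ => g * (k⁻¹ : K)) ?_ ?_ ?_
    · intro g hg
      simp only [Finset.mem_filter, Finset.mem_univ, true_and] at hg ⊢
      rw [px_mul, hg, inv_inv, hk]
    · intro g _ h _ hgh
      exact mul_right_cancel hgh
    · intro g hg
      simp only [Finset.mem_filter, Finset.mem_univ, true_and] at hg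
      refine ⟨g * (k : K), ?_, ?_⟩
      · simp only [Finset.mem_filter, Finset.mem_univ, true_and]
        rw [px_mul, hg, ← hk, inv_smul_smul]
      · simp
  have h2 : Fintype.card Γ = ∑ y : X, (Finset.univ.filter (fun g : Γ => px K x0 g = y)).card := by
    rw [← Finset.card_univ]
    exact Finset.card_eq_sum_card_fiberwise (fun g _ => Finset.mem_univ _)
  rw [h2, Finset.sum_congr rfl (fun y _ => h1 y), Finset.sum_const, Finset.card_univ, smul_eq_mul, mul_comm]

/-- lifting the cycles of a permutation of a transitive `K`-set -/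
theorem sch_lift (A : Set Γ) (hA : ∀ x ∈ A, x⁻¹ ∈ A) (K : Subgroup Γ) [MulAction K X]
    [MulAction.IsPretransitive K X] [Nonempty X] (σ : Equiv.Perm X)
    (hσ : ∀ x, σ x ≠ x → ∃ a : K, (a : Γ) ∈ A ∧ σ x = a • x)
    (C : ℕ) (hC : 3 ≤ C) (hper : ∀ x, σ x ≠ x → ∀ i, 0 < i → i < C → (σ ^ i) x ≠ x) :
    ∃ F : Finset (List Γ), (∀ c ∈ F, Cyc (cayS A) c ∧ C ≤ c.length) ∧ PD F ∧
      Fintype.card Γ * (Finset.univ.filter (fun x => σ x ≠ x)).card ≤ Fintype.card X * ∑ c ∈ F, c.length := by
  obtain ⟨x0⟩ := ‹Nonempty X›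
  let a : X → K := fun x => if h : σ x ≠ x then (hσ x h).choose else 1
  have ha1 : ∀ x, σ x = a x • x := by
    intro x
    by_cases h : σ x ≠ x
    · simp only [a, dif_pos h]
      exact (hσ x h).choose_spec.2
    · simp only [a, dif_neg h, one_smul]
      exact not_not.1 h
  have ha2 : ∀ x, σ x ≠ x → (a x : Γ) ∈ A := by
    intro x h
    simp only [a, dif_pos h]
    exact (hσ x h).choose_spec.1
  have ha3 : ∀ x, σ x = x → a x = 1 := by
    intro x h
    simp only [a, dif_neg (not_not.2 h)]
  let t : Γ → Γ := fun g => g * ((a (px K x0 g))⁻¹ : K)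
  have ht1 : ∀ g, px K x0 (t g) = σ (px K x0 g) := by
    intro g
    simp only [t]
    rw [px_mul, inv_inv, ← ha1]
  have htinj : Function.Injective t := by
    intro g h hgh
    have h1 : σ (px K x0 g) = σ (px K x0 h) := by rw [← ht1, ← ht1, hgh]
    have h2 := σ.injective h1
    simp only [t] at hgh
    rw [h2] at hgh
    exact mul_right_cancel hgh
  let τ : Equiv.Perm Γ := Equiv.ofBijective t (Finite.injective_iff_bijective.1 htinj)
  have hτ : ∀ g, τ g = g * ((a (px K x0 g))⁻¹ : K) := fun g => rfl
  have hτp : ∀ (i : ℕ) (g : Γ), px K x0 ((τ ^ i) g) = (σ ^ i) (px K x0 g) := by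
    intro i
    induction i with
    | zero => intro g; simp
    | succ i ih =>
      intro g
      rw [pow_succ', Equiv.Perm.mul_apply, pow_succ', Equiv.Perm.mul_apply, ← ih]
      exact ht1 _
  have hmov : ∀ g, τ g ≠ g ↔ σ (px K x0 g) ≠ px K x0 g := by
    intro g
    rw [not_iff_not]
    constructor
    · intro h
      have := ht1 g
      change px K x0 (τ g) = _ at this
      rw [h] at this
      exact this.symm
    · intro h
      rw [hτ, ha3 _ h]
      simp
  obtain ⟨F, hF1, hF2, hF3⟩ := perm_family (G := cayS A) τ (by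
    intro g hg
    rw [cayS_adj hA]
    refine ⟨fun h => hg h.symm, ?_⟩
    rw [hτ, inv_mul_cancel_left, Subgroup.coe_inv]
    exact hA _ (ha2 _ ((hmov g).1 hg))) C hC (by
    intro g hg i hi hiC h
    refine hper (px K x0 g) ((hmov g).1 hg) i hi hiC ?_
    rw [← hτp, h])
  refine ⟨F, hF1, hF2, ?_⟩
  have hcount : (Finset.univ.filter (fun g => τ g ≠ g)).card * Fintype.card X =
      Fintype.card Γ * (Finset.univ.filter (fun x => σ x ≠ x)).card := by
    have h1 : (Finset.univ.filter (fun g => τ g ≠ g)).card =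
        ∑ x ∈ Finset.univ.filter (fun x => σ x ≠ x), (Finset.univ.filter (fun g : Γ => px K x0 g = x)).card := by
      rw [Finset.card_eq_sum_card_fiberwise (f := px K x0) (t := Finset.univ.filter (fun x => σ x ≠ x))]
      · refine Finset.sum_congr rfl ?_
        intro x hx
        congr 1
        ext g
        simp only [Finset.mem_filter, Finset.mem_univ, true_and] at hx ⊢
        constructor
        · exact fun h => h.2
        · intro h
          refine ⟨(hmov g).2 ?_, h⟩
          rw [h]
          exact hx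
      · intro g hg
        simp only [Finset.coe_filter, Finset.mem_univ, true_and, Set.mem_ofPred_eq] at hg ⊢
        exact (hmov g).1 hg
    rw [h1, Finset.sum_mul, Finset.sum_congr rfl (fun x _ => fibx_card K x0 x), Finset.sum_const, smul_eq_mul,
      mul_comm]
  rw [← hcount, mul_comm]
  exact Nat.mul_le_mul_left _ hF3

end

end Pool.Agent.Lib.MP_688fd0_co.ASY.H91
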